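import Pool.Agent.H418R3.FB.Stmts
import Pool.Agent.H418R3.GurWF

set_option autoImplicit false
open Set Topology Filter MeasureTheory

namespace Pool.Agent.H418R3.FB

open Pool.Agent.H418R3.Gur (IF br)

theorem br_congr' {x y : ℕ → ℕ} : ∀ n, (∀ k < n, x k = y k) → br x n = br y n
  | 0, _ => rfl
  | n + 1, h => by
    unfold br
    rw [h n (Nat.lt_succ_self n), br_congr' n fun k hk => h k (by omega)]

theorem polishLB : PolishSpace (List ℕ → Bool) := {}

theorem IF_analytic : AnalyticSet (IF : Set (List ℕ → Bool)) := by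
  have h : (IF : Set (List ℕ → Bool)) =
      Prod.fst '' {p : (List ℕ → Bool) × (ℕ → ℕ) | ∀ n, p.1 (br p.2 n) = true} := by
    ext T
    constructor
    · rintro ⟨b, hb⟩
      exact ⟨(T, b), hb, rfl⟩
    · rintro ⟨⟨T', b⟩, hb, rfl⟩
      exact ⟨b, hb⟩
  rw [h]
  have _ : PolishSpace ((List ℕ → Bool) × (ℕ → ℕ)) := {}
  apply AnalyticSet.image_of_continuous _ continuous_fst
  apply IsClosed.analyticSet
  rw [show {p : (List ℕ → Bool) × (ℕ → ℕ) | ∀ n, p.1 (br p.2 n) = true} =
    ⋂ n, {p : (List ℕ → Bool) × (ℕ → ℕ) | p.1 (br p.2 n) = true} by ext; simp]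
  apply isClosed_iInter
  intro n
  rw [← isOpen_compl_iff, isOpen_iff_mem_nhds]
  intro p hp
  have h1 : ∀ᶠ q : (List ℕ → Bool) × (ℕ → ℕ) in 𝓝 p, q.1 (br p.2 n) = p.1 (br p.2 n) := by
    have hc : Continuous fun q : (List ℕ → Bool) × (ℕ → ℕ) => q.1 (br p.2 n) :=
      (continuous_apply _).comp continuous_fst
    exact hc.continuousAt.eventually (IsOpen.mem_nhds (isOpen_discrete {p.1 (br p.2 n)}) rfl)
  have h2 : ∀ᶠ q : (List ℕ → Bool) × (ℕ → ℕ) in 𝓝 p, ∀ k ∈ Finset.range n, q.2 k = p.2 k := by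
    rw [Filter.eventually_all_finset]
    intro k _
    have hc : Continuous fun q : (List ℕ → Bool) × (ℕ → ℕ) => q.2 k :=
      (continuous_apply _).comp continuous_snd
    exact hc.continuousAt.eventually (IsOpen.mem_nhds (isOpen_discrete {p.2 k}) rfl)
  filter_upwards [h1, h2] with q h3 h4
  intro h5
  apply hp
  have h6 : br q.2 n = br p.2 n := br_congr' n fun k hk => h4 k (Finset.mem_range.2 hk)
  simp only [mem_ofPred_eq] at h5 ⊢
  rw [h6, h3] at h5
  exact h5

/-- the lists of the blocks -/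
def sig (b : ℕ) : List ℕ := ((Encodable.decode (Nat.unpair b).1 : Option (List ℕ)).getD [])

theorem sig_pair (s : List ℕ) (r : ℕ) : sig (Nat.pair (Encodable.encode s) r) = s := by
  unfold sig
  simp

theorem sig_infinite (s : List ℕ) (P : ℕ → Prop) (hP : ∀ b, sig b = s → P b) :
    {b | P b ∧ sig b = s}.Infinite := by
  apply Set.infinite_of_injective_forall_mem (f := fun r => Nat.pair (Encodable.encode s) r)
  · intro r r' h
    simpa using h
  · intro r
    exact ⟨hP _ (sig_pair s r), sig_pair s r⟩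

def AA (T : Set (List ℕ)) : Set ℕ := {b | (sig b).Pairwise (· < ·) ∧ Bad T (sig b)}

theorem reduction (hSpace : ∀ σ : ℕ → List ℕ, ∃ ξ e, BSp σ ξ e) (hMeas : TaskMeas)
    (hPos : TaskPos) (hNeg : NoBasis) (hIdx : TaskIdx) (hTP : TaskTreePos) (hTN : TaskTreeNeg)
    (hAna : TaskAna) (Z : Type) [TopologicalSpace Z] [PolishSpace Z] (B : Set Z)
    (hB : AnalyticSet B) : ∃ f : Z → SF, @Measurable Z SF (borel Z) effros f ∧ B = f ⁻¹' SFb := by
  obtain ⟨T, hT1, hT2, hT3⟩ := hAna Z B hB
  obtain ⟨ξ, e, hξ⟩ := hSpace sig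
  refine ⟨fun z => ⟨XX sig e (AA (T z)), Submodule.isClosed_topologicalClosure _⟩, ?_, ?_⟩
  · letI : MeasurableSpace Z := borel Z
    refine hMeas sig e Z (fun z => AA (T z)) ?_ (fun z => Submodule.isClosed_topologicalClosure _)
    intro b
    by_cases hs : (sig b).Pairwise (· < ·)
    · have h1 : {z | b ∈ AA (T z)} = ⋂ t : List ℕ, {z | t ∈ T z → t.length = (sig b).length →
          ∃ i < (sig b).length, (sig b).getD i 0 < t.getD i 0} := by
        ext z
        simp only [AA, mem_ofPred_eq, mem_iInter, Bad]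
        exact ⟨fun h t => h.2 t, fun h => ⟨hs, fun t => h t⟩⟩
      rw [h1]
      refine MeasurableSet.iInter fun t => ?_
      by_cases h2 : t.length = (sig b).length → ∃ i < (sig b).length,
          (sig b).getD i 0 < t.getD i 0
      · have : {z | t ∈ T z → t.length = (sig b).length →
          ∃ i < (sig b).length, (sig b).getD i 0 < t.getD i 0} = univ := by
          ext z; simp only [mem_ofPred_eq, mem_univ, iff_true]; exact fun _ => h2
        rw [this]; exact MeasurableSet.univ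
      · have : {z | t ∈ T z → t.length = (sig b).length →
          ∃ i < (sig b).length, (sig b).getD i 0 < t.getD i 0} = {z | t ∈ T z}ᶜ := by
          ext z; simp only [mem_ofPred_eq, mem_compl_iff]
          exact ⟨fun h h3 => h2 (h h3), fun h h3 => absurd h3 h⟩
        rw [this]; exact (hT1 t).compl
    · have : {z | b ∈ AA (T z)} = ∅ := by
        ext z; simp only [AA, mem_ofPred_eq, mem_empty_iff_false, iff_false]
        exact fun h => hs h.1
      rw [this]; exact MeasurableSet.empty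
  · ext z
    rw [hT3 z]
    show _ ↔ HasBasis (XX sig e (AA (T z)))
    constructor
    · rintro ⟨β, hβ⟩
      obtain ⟨f, hf1, hf2⟩ := hTP hIdx (T z) β hβ
      exact hPos sig ξ e hξ (AA (T z)) f hf1 fun b hb => hf2 (sig b) hb.1 hb.2
    · intro h
      by_contra hc
      refine hNeg sig ξ e hξ (AA (T z)) (fun b hb => hb.1) ?_ h
      intro l
      obtain ⟨s, hs1, hs2, hs3⟩ := hTN (T z) (hT2 z) hc l
      refine ⟨s, hs1, hs2, ?_⟩
      exact sig_infinite s (fun b => b ∈ AA (T z)) fun b hb => ⟨by rw [hb]; exact hs2.1,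
        by rw [hb]; exact hs3⟩

theorem final_of (hSpace : ∀ σ : ℕ → List ℕ, ∃ ξ e, BSp σ ξ e) (hMeas : TaskMeas)
    (hPos : TaskPos) (hNeg : NoBasis) (hIdx : TaskIdx) (hTP : TaskTreePos) (hTN : TaskTreeNeg)
    (hAna : TaskAna) : Final := by
  refine ⟨fun Z _ _ B hB => reduction hSpace hMeas hPos hNeg hIdx hTP hTN hAna Z B hB, ?_⟩
  intro hm
  have _ := polishLB
  obtain ⟨f, hf, hf2⟩ := reduction hSpace hMeas hPos hNeg hIdx hTP hTN hAna
    (List ℕ → Bool) IF IF_analytic
  apply Pool.Agent.H418R3.Gur.IF_not_borel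
  rw [hf2]
  exact hf hm

end Pool.Agent.H418R3.FB
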