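import Mathlib

/-!
# Project FB (MP_708f28_lc): Fréchet spaces with a Schauder basis are complete analytic
-/

set_option autoImplicit false
open Set Topology Filter MeasureTheory

namespace Pool.Agent.H418R3.FB

/-- `C(ℝ)` with the compact-open topology -/
abbrev CR := C(ℝ, ℝ)

/-- `e` is a Schauder basis of `X`: every `x ∈ X` has a unique expansion. -/
def IsSchauder (X : Submodule ℝ CR) (e : ℕ → CR) : Prop :=
  (∀ n, e n ∈ X) ∧ ∀ x ∈ X, ∃! a : ℕ → ℝ,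
    Tendsto (fun N => ∑ i ∈ Finset.range N, a i • e i) atTop (𝓝 x)

/-- finite-dimensional, or with a Schauder basis -/
def HasBasis (X : Submodule ℝ CR) : Prop :=
  FiniteDimensional ℝ X ∨ ∃ e, IsSchauder X e

/-- the closed subspaces of `C(ℝ)` -/
abbrev SF := {X : Submodule ℝ CR // IsClosed (X : Set CR)}

/-- the Effros Borel structure -/
def effros : MeasurableSpace SF :=
  MeasurableSpace.generateFrom
    {S | ∃ U : Set CR, IsOpen U ∧ S = {X : SF | ((X.1 : Set CR) ∩ U).Nonempty}}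

/-- the closed subspaces with a basis -/
def SFb : Set SF := {X | HasBasis X.1}

/-! ## blocks -/

/-- number of entries of `s` below `k`: the index of the window of the level `k` -/
def idx (s : List ℕ) (k : ℕ) : ℕ := (s.filter (· < k)).length

noncomputable def HH (b : ℕ) : ℝ := b + 1

noncomputable def rr (b : ℕ) : ℝ := 2 ^ ((b + 1).factorial)

/-- the weight of the functional `x_a - x_a'` in the block `b` at the level `k` -/
noncomputable def wt (σ : ℕ → List ℕ) (b k a a' : ℕ) : ℝ :=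
  rr b ^ idx (σ b) k * (if a = idx (σ b) k ∨ a' = idx (σ b) k then 1 else HH b)

/-- closed span of the vectors `e b a`, `b ∈ A`, `0 < a < |σ b|` -/
def XX (σ : ℕ → List ℕ) (e : ℕ → ℕ → CR) (A : Set ℕ) : Submodule ℝ CR :=
  (Submodule.span ℝ
    {x | ∃ b ∈ A, ∃ a, 0 < a ∧ a < (σ b).length ∧ x = e b a}).topologicalClosure

/-- the block space -/
structure BSp (σ : ℕ → List ℕ) (ξ : ℕ → ℕ → CR →L[ℝ] ℝ) (e : ℕ → ℕ → CR) : Prop where
  ξe : ∀ b a, 0 < a → a < (σ b).length → ∀ b' a',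
    ξ b' a' (e b a) = if b' = b ∧ a' = a then 1 else 0
  ξ0 : ∀ b a g, (a = 0 ∨ (σ b).length ≤ a) → ξ b a g = 0
  up : ∀ g ∈ XX σ e univ, ∀ (k : ℕ) (M : ℝ), 0 ≤ M →
    (∀ b a a', a < (σ b).length → a' < (σ b).length →
      wt σ b k a a' * |ξ b a g - ξ b a' g| ≤ M) → ∀ t : ℝ, |t| ≤ k → |g t| ≤ M
  dn : ∀ g ∈ XX σ e univ, ∀ (k : ℕ) (M : ℝ), (∀ t : ℝ, |t| ≤ k + 1 → |g t| ≤ M) →
    ∀ b a a', a < (σ b).length → a' < (σ b).length →
      wt σ b k a a' * |ξ b a g - ξ b a' g| ≤ M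

/-! ## tasks -/

/-- disjoint bumps in `C(ℝ)`: `F m W` has the value `W k` at the point `c k m ∈ [k, k+1]` and
vanishes at the points `c k m'`, `m' ≠ m`. -/
def Emb (c : ℕ → ℕ → ℝ) (F : ℕ → (ℕ → ℝ) → CR) : Prop :=
  (∀ k m, 0 ≤ c k m ∧ c k m ≤ k + 1) ∧
  (∀ m W, (∃ K, ∀ k ≥ K, W k = W K) → ∀ k m', F m W (c k m') = if m' = m then W k else 0) ∧
  (∀ t : ℝ, ∃ (k m : ℕ) (η : ℝ), |η| ≤ 1 ∧ (k : ℝ) ≤ |t| ∧
    ∀ m' W, (∃ K, ∀ k ≥ K, W k = W K) → F m' W t = η * F m' W (c k m))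

def TaskEmb : Prop := ∃ c F, Emb c F

def TaskSpace : Prop := TaskEmb → ∀ σ : ℕ → List ℕ, ∃ ξ e, BSp σ ξ e

def TaskMeas : Prop :=
  ∀ (σ : ℕ → List ℕ) (e : ℕ → ℕ → CR) (Z : Type) [MeasurableSpace Z] (f : Z → Set ℕ),
    (∀ b, MeasurableSet {z | b ∈ f z}) →
    ∀ h : ∀ z, IsClosed (XX σ e (f z) : Set CR),
      @Measurable Z SF _ effros (fun z => ⟨XX σ e (f z), h z⟩)

/-- supports and projections onto sets of blocks -/
def TaskProj : Prop :=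
  ∀ σ ξ e, BSp σ ξ e → ∀ A : Set ℕ,
    (∀ g ∈ XX σ e A, g ∈ XX σ e univ ∧ ∀ b ∉ A, ∀ a, ξ b a g = 0) ∧
    ∀ F : Set ℕ, ∀ g ∈ XX σ e A, ∃ g' ∈ XX σ e A,
      (∀ b ∈ F, ∀ a, ξ b a g' = ξ b a g) ∧ ∀ b ∉ F, ∀ a, ξ b a g' = 0

/-- if all blocks have a uniformly good basis then the space has a basis -/
def TaskPos : Prop :=
  ∀ σ ξ e, BSp σ ξ e → ∀ (A : Set ℕ) (f : ℕ → ℕ), (∀ k, k ≤ f k) →
    (∀ b ∈ A, ∃ m < (σ b).length, ∀ k, idx (σ b) k = m → m < idx (σ b) (f k)) →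
    HasBasis (XX σ e A)

/-- partial sum operators of a Schauder basis are equicontinuous -/
def TaskAuto : Prop :=
  ∀ (X : Submodule ℝ CR) (e : ℕ → CR), IsClosed (X : Set CR) → IsSchauder X e →
    ∃ (S : ℕ → X →ₗ[ℝ] X) (l : ℕ → ℕ) (C : ℕ → ℝ), (∀ x, S 0 x = 0) ∧
      (∀ x, Tendsto (fun N => ((S N x : X) : CR)) atTop (𝓝 (x : CR))) ∧
      (∀ N x, S N (S N x) = S N x) ∧
      (∀ N, ∃ (φ : X →ₗ[ℝ] ℝ) (v : X), ∀ x, S (N + 1) x = S N x + φ x • v) ∧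
      (∀ k, 0 < C k) ∧
      ∀ k N (x : X) (M : ℝ), (∀ t : ℝ, |t| ≤ l k → |(x : CR) t| ≤ M) →
        ∀ t : ℝ, |t| ≤ k → |((S N x : X) : CR) t| ≤ C k * M

/-- no path of almost idempotent matrices with steps of rank one from `0` to `1` which almost
preserves the `n` lines -/
def TaskMatrix : Prop :=
  ∀ n : ℕ, 3 ≤ n → ∀ C : ℝ, 0 < C → ∃ δ > 0, ∀ (M : ℕ → ℕ → ℕ → ℝ),
    (∀ N i, M N 0 i = 0) →
    (∀ N a, a < n → ∑ i ∈ Finset.range n, M N a i = 0) →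
    (∀ a i, a < n → i < n → M 0 a i = 0) →
    (∀ a i, 1 ≤ a → a < n → 1 ≤ i → i < n →
      Tendsto (fun N => M N a i) atTop (𝓝 (if a = i then 1 else 0))) →
    (∀ N, ∃ u w : ℕ → ℝ, ∀ a i, a < n → i < n → M (N + 1) a i = M N a i + u a * w i) →
    (∀ N a i, a < n → i < n → |M N a i| ≤ C) →
    (∀ N i a a', i < n → a < n → a' < n → a ≠ i → a' ≠ i → |M N a i - M N a' i| ≤ δ) →
    (∀ N a i, a < n → i < n →
      |∑ j ∈ Finset.Ico 1 n, M N a j * M N j i - M N a i| ≤ δ) → False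

def TaskSmall : Prop :=
  ∀ (L : ℕ) (ε : ℝ), 0 < ε → ∃ b₀ : ℕ, ∀ b ≥ b₀,
    (∀ c < b, HH c * rr c ^ L * HH b / rr b ≤ ε) ∧
    (∀ c > b, HH c / rr c * (HH b * rr b ^ L) ≤ ε) ∧ HH b / rr b ≤ ε ∧ 1 / HH b ≤ ε

/-- windows: for a strictly increasing list -/
def TaskIdx : Prop :=
  ∀ s : List ℕ, s.Pairwise (· < ·) →
    (∀ i k, i < s.length → (i = 0 ∨ s.getD (i - 1) 0 < k) → k ≤ s.getD i 0 → idx s k = i) ∧
    (∀ i k, i < s.length → s.getD i 0 < k → i < idx s k) ∧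
    (∀ k, idx s k ≤ k) ∧ (∀ k k', k ≤ k' → idx s k ≤ idx s k') ∧ ∀ k, idx s k ≤ s.length

/-- `s` is `l`-sparse -/
def Sparse (l : ℕ → ℕ) (s : List ℕ) : Prop :=
  s.Pairwise (· < ·) ∧ l 0 ≤ s.getD 0 0 ∧
    ∀ i, i + 1 < s.length → l (s.getD i 0 + 1) ≤ s.getD (i + 1) 0

/-- no Schauder basis when there are infinitely many blocks with an `l`-sparse list, for all `l` -/
def NoBasis : Prop :=
  ∀ σ ξ e, BSp σ ξ e → ∀ A : Set ℕ, (∀ b ∈ A, (σ b).Pairwise (· < ·)) →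
    (∀ l : ℕ → ℕ, ∃ s, 3 ≤ s.length ∧ Sparse l s ∧ {b ∈ A | σ b = s}.Infinite) →
    ¬ HasBasis (XX σ e A)

def TaskNeg : Prop := TaskProj → TaskAuto → TaskMatrix → TaskSmall → TaskIdx → NoBasis

/-- initial segment of `β` -/
def seg (β : ℕ → ℕ) (n : ℕ) : List ℕ := (List.range n).map β

/-- `s` is not above any element of `T` of the same length -/
def Bad (T : Set (List ℕ)) (s : List ℕ) : Prop :=
  ∀ t ∈ T, t.length = s.length → ∃ i < s.length, s.getD i 0 < t.getD i 0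

def TaskTreePos : Prop :=
  TaskIdx → ∀ (T : Set (List ℕ)) (β : ℕ → ℕ), (∀ n, seg β n ∈ T) →
    ∃ f : ℕ → ℕ, (∀ k, k ≤ f k) ∧ ∀ s : List ℕ, s.Pairwise (· < ·) → Bad T s →
      ∃ m < s.length, ∀ k, idx s k = m → m < idx s (f k)

def TaskTreeNeg : Prop :=
  ∀ T : Set (List ℕ), (∀ s t, s ++ t ∈ T → s ∈ T) → (¬ ∃ β : ℕ → ℕ, ∀ n, seg β n ∈ T) →
    ∀ l : ℕ → ℕ, ∃ s, 3 ≤ s.length ∧ Sparse l s ∧ Bad T s

/-- analytic sets by trees -/
def TaskAna : Prop :=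
  ∀ (Z : Type) [TopologicalSpace Z] [PolishSpace Z] (B : Set Z), AnalyticSet B →
    ∃ T : Z → Set (List ℕ), (∀ s, @MeasurableSet Z (borel Z) {z | s ∈ T z}) ∧
      (∀ z s t, s ++ t ∈ T z → s ∈ T z) ∧ ∀ z, z ∈ B ↔ ∃ β : ℕ → ℕ, ∀ n, seg β n ∈ T z

/-- the final statement -/
def Final : Prop :=
  (∀ (Z : Type) [TopologicalSpace Z] [PolishSpace Z] (B : Set Z), AnalyticSet B →
    ∃ f : Z → SF, @Measurable Z SF (borel Z) effros f ∧ B = f ⁻¹' SFb) ∧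
  ¬ @MeasurableSet SF effros SFb

end Pool.Agent.H418R3.FB
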