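import Mathlib
import Pool.Agent.H418R3.FB.Stmts

/-!
Project H418-FB (helper418), task Idx (helper174).
-/

set_option autoImplicit false

namespace Pool.Agent.H418R3.FB.Idx

open Pool.Agent.H418R3.FB

theorem lt_idx : ∀ s : List ℕ, s.Pairwise (· < ·) → ∀ i k : ℕ,
    i < idx s k ↔ i < s.length ∧ s.getD i 0 < k := by
  intro s
  induction s with
  | nil =>
    intro _ i k
    simp [idx]
  | cons a s ih =>
    intro hs i k
    rw [List.pairwise_cons] at hs
    obtain ⟨h1, h2⟩ := hs
    have hget : ∀ j, j < s.length → a < s.getD j 0 := by
      intro j hj
      rw [List.getD_eq_getElem _ _ hj]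
      exact h1 _ (List.getElem_mem hj)
    by_cases hak : a < k
    · have e : idx (a :: s) k = idx s k + 1 := by
        simp [idx, hak]
      rw [e]
      cases i with
      | zero => simp [hak]
      | succ i =>
        have := ih h2 i k
        simp only [List.getD_cons_succ, List.length_cons]
        constructor
        · intro h
          have := this.1 (by omega)
          exact ⟨by omega, this.2⟩
        · intro h
          have := this.2 ⟨by omega, h.2⟩
          omega
    · have e : idx (a :: s) k = idx s k := by
        simp [idx, hak]
      rw [e]
      have h0 : idx s k = 0 := by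
        by_contra hne
        have h3 := (ih h2 0 k).1 (Nat.pos_of_ne_zero hne)
        have h4 := hget 0 h3.1
        omega
      rw [h0]
      constructor
      · intro h
        omega
      · rintro ⟨h3, h4⟩
        cases i with
        | zero =>
          simp only [List.getD_cons_zero] at h4
          exact absurd h4 hak
        | succ i =>
          simp only [List.getD_cons_succ, List.length_cons] at h3 h4
          have h5 := hget i (by omega)
          omega

theorem taskIdx : TaskIdx := by
  intro s hs
  have key := lt_idx s hs
  refine ⟨?_, ?_, ?_, ?_, ?_⟩
  · intro i k hi h1 h2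
    have h3 : ¬ i < idx s k := by
      intro h
      have := ((key i k).1 h).2
      omega
    rcases Nat.eq_zero_or_pos i with h0 | h0
    · omega
    · have h4 : s.getD (i - 1) 0 < k := h1.resolve_left (by omega)
      have h5 : i - 1 < idx s k := (key (i - 1) k).2 ⟨by omega, h4⟩
      omega
  · intro i k hi h
    exact (key i k).2 ⟨hi, h⟩
  · intro k
    have hnd : (s.filter (· < k)).Nodup :=
      List.Nodup.filter _ (hs.imp (fun h => ne_of_lt h))
    unfold idx
    rw [← List.toFinset_card_of_nodup hnd]
    calc _ ≤ (Finset.range k).card := by
          apply Finset.card_le_card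
          intro x hx
          rw [List.mem_toFinset, List.mem_filter] at hx
          simpa using hx.2
      _ = k := Finset.card_range k
  · intro k k' hk
    by_contra hcon
    have h1 : idx s k' < idx s k := not_le.1 hcon
    have h2 := (key _ _).1 h1
    have h3 : idx s k' < idx s k' := (key _ _).2 ⟨h2.1, h2.2.trans_le hk⟩
    exact lt_irrefl _ h3
  · intro k
    exact List.length_filter_le _ _

end Pool.Agent.H418R3.FB.Idx
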