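import Pool.Agent.H418R3.FB.Stmts

set_option autoImplicit false
open Set Topology Filter MeasureTheory

namespace Pool.Agent.H418R3.FB

theorem HH_ge (b : ℕ) : 1 ≤ HH b := by
  unfold HH
  have : (0 : ℝ) ≤ b := Nat.cast_nonneg b
  linarith

theorem HH_pos (b : ℕ) : 0 < HH b := lt_of_lt_of_le one_pos (HH_ge b)

theorem rr_ge (b : ℕ) : 1 ≤ rr b := by
  unfold rr
  exact one_le_pow₀ (by norm_num)

theorem rr_pos (b : ℕ) : 0 < rr b := lt_of_lt_of_le one_pos (rr_ge b)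

theorem wt_le (σ : ℕ → List ℕ) (b k a a' : ℕ) :
    wt σ b k a a' ≤ rr b ^ idx (σ b) k * HH b := by
  unfold wt
  apply mul_le_mul_of_nonneg_left _ (pow_nonneg (rr_pos b).le _)
  split_ifs
  · exact HH_ge b
  · exact le_rfl

theorem le_wt (σ : ℕ → List ℕ) (b k a a' : ℕ) : rr b ^ idx (σ b) k ≤ wt σ b k a a' := by
  unfold wt
  have h := pow_nonneg (rr_pos b).le (idx (σ b) k)
  split_ifs
  · rw [mul_one]
  · exact le_mul_of_one_le_right h (HH_ge b)

theorem wt_nonneg (σ : ℕ → List ℕ) (b k a a' : ℕ) : 0 ≤ wt σ b k a a' :=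
  (pow_nonneg (rr_pos b).le _).trans (le_wt σ b k a a')

theorem one_le_wt (σ : ℕ → List ℕ) (b k a a' : ℕ) : 1 ≤ wt σ b k a a' :=
  (one_le_pow₀ (rr_ge b)).trans (le_wt σ b k a a')

/-- the level `k` seminorm is at most `M` -/
def PP (σ : ℕ → List ℕ) (ξ : ℕ → ℕ → CR →L[ℝ] ℝ) (k : ℕ) (M : ℝ) (g : CR) : Prop :=
  ∀ b a a', a < (σ b).length → a' < (σ b).length →
      wt σ b k a a' * |ξ b a g - ξ b a' g| ≤ M

/-- the vectors `v_i` of the block `b` (with `n` lines) -/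
noncomputable def vv (e : ℕ → ℕ → CR) (n b i : ℕ) : CR :=
  if i = 0 then -∑ a ∈ Finset.Ico 1 n, e b a else e b i

section
variable {σ : ℕ → List ℕ} {ξ : ℕ → ℕ → CR →L[ℝ] ℝ} {e : ℕ → ℕ → CR}

theorem ξ_sum (hB : BSp σ ξ e) (b b' a' : ℕ) :
    ξ b' a' (∑ a ∈ Finset.Ico 1 (σ b).length, e b a) =
      if b' = b ∧ 1 ≤ a' ∧ a' < (σ b).length then 1 else 0 := by
  rw [map_sum]
  rw [Finset.sum_congr rfl (fun a ha => hB.ξe b a (by have := (Finset.mem_Ico.1 ha).1; omega)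
    (Finset.mem_Ico.1 ha).2 b' a')]
  by_cases h : b' = b
  · subst h
    simp only [true_and, Finset.sum_ite_eq, Finset.mem_Ico]
  · simp [h]

theorem ξ_vv_ne (hB : BSp σ ξ e) {b b' : ℕ} (h : b' ≠ b) (i a' : ℕ)
    (hi : i < (σ b).length) : ξ b' a' (vv e (σ b).length b i) = 0 := by
  unfold vv
  split_ifs with h0
  · rw [map_neg, ξ_sum hB, if_neg (fun h1 => h h1.1), neg_zero]
  · rw [hB.ξe b i (Nat.pos_of_ne_zero h0) hi, if_neg (fun h1 => h h1.1)]

theorem ξ_vv (hB : BSp σ ξ e) (b i a' : ℕ) (hi : i < (σ b).length) (ha : a' < (σ b).length) :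
    ξ b a' (vv e (σ b).length b i) =
      if i = 0 then (if a' = 0 then 0 else -1) else (if a' = i then 1 else 0) := by
  unfold vv
  split_ifs with h0 h1 h1
  · rw [map_neg, ξ_sum hB, if_neg (by omega), neg_zero]
  · rw [map_neg, ξ_sum hB, if_pos (by omega)]
  · rw [hB.ξe b i (Nat.pos_of_ne_zero h0) hi, if_pos ⟨rfl, h1⟩]
  · rw [hB.ξe b i (Nat.pos_of_ne_zero h0) hi, if_neg (fun h2 => h1 h2.2)]

theorem vv_diff_le (hB : BSp σ ξ e) (b i a a' : ℕ) (hi : i < (σ b).length)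
    (ha : a < (σ b).length) (ha' : a' < (σ b).length) :
    |ξ b a (vv e (σ b).length b i) - ξ b a' (vv e (σ b).length b i)| ≤
      if a = i ∨ a' = i then 1 else 0 := by
  rw [ξ_vv hB b i a hi ha, ξ_vv hB b i a' hi ha']
  by_cases h0 : i = 0
  · subst h0
    by_cases h1 : a = 0 <;> by_cases h2 : a' = 0 <;> simp [h1, h2]
  · by_cases h1 : a = i <;> by_cases h2 : a' = i <;> simp [h0, h1, h2]

theorem vv_mem {A : Set ℕ} {b : ℕ} (hb : b ∈ A) (i : ℕ) (hi : i < (σ b).length) :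
    vv e (σ b).length b i ∈ XX σ e A := by
  have hmem : ∀ a, 0 < a → a < (σ b).length → e b a ∈ XX σ e A := fun a h1 h2 =>
    Submodule.le_topologicalClosure _ (Submodule.subset_span ⟨b, hb, a, h1, h2, rfl⟩)
  unfold vv
  split_ifs with h0
  · apply Submodule.neg_mem
    apply Submodule.sum_mem
    intro a ha
    rw [Finset.mem_Ico] at ha
    exact hmem a (by omega) ha.2
  · exact hmem i (Nat.pos_of_ne_zero h0) hi

theorem vv_sum (b n : ℕ) (hn : 1 ≤ n) : ∑ i ∈ Finset.range n, vv e n b i = 0 := by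
  rw [Finset.range_eq_Ico, Finset.sum_eq_sum_Ico_succ_bot (by omega)]
  have h1 : ∑ k ∈ Finset.Ico (0 + 1) n, vv e n b k = ∑ k ∈ Finset.Ico 1 n, e b k := by
    apply Finset.sum_congr rfl
    intro k hk
    rw [Finset.mem_Ico] at hk
    unfold vv
    rw [if_neg (by omega)]
  rw [h1]
  unfold vv
  rw [if_pos rfl]
  simp

theorem PP_vv (hB : BSp σ ξ e) (b i k : ℕ) (hi : i < (σ b).length) :
    PP σ ξ k (rr b ^ idx (σ b) k * HH b) (vv e (σ b).length b i) := by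
  intro b' a a' ha ha'
  have h0 : 0 ≤ rr b ^ idx (σ b) k * HH b := mul_nonneg (pow_nonneg (rr_pos b).le _) (HH_pos b).le
  by_cases h : b' = b
  · subst h
    have h1 := vv_diff_le hB b' i a a' hi ha ha'
    have h2 : |ξ b' a (vv e (σ b').length b' i) - ξ b' a' (vv e (σ b').length b' i)| ≤ 1 := by
      refine h1.trans ?_
      split_ifs <;> norm_num
    calc wt σ b' k a a' * _ ≤ (rr b' ^ idx (σ b') k * HH b') * 1 :=
          mul_le_mul (wt_le σ b' k a a') h2 (abs_nonneg _) h0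
      _ = _ := mul_one _
  · rw [ξ_vv_ne hB h i a hi, ξ_vv_ne hB h i a' hi]
    simpa using h0

theorem PP_vv' (hB : BSp σ ξ e) (b i k : ℕ) (hi : i < (σ b).length) (hk : idx (σ b) k = i) :
    PP σ ξ k (rr b ^ i) (vv e (σ b).length b i) := by
  intro b' a a' ha ha'
  have h0 : 0 ≤ rr b ^ i := pow_nonneg (rr_pos b).le _
  by_cases h : b' = b
  · subst h
    have h1 := vv_diff_le hB b' i a a' hi ha ha'
    by_cases h2 : a = i ∨ a' = i
    · rw [if_pos h2] at h1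
      have h3 : wt σ b' k a a' = rr b' ^ i := by
        unfold wt
        rw [hk, if_pos h2, mul_one]
      rw [h3]
      calc rr b' ^ i * _ ≤ rr b' ^ i * 1 := mul_le_mul_of_nonneg_left h1 h0
        _ = _ := mul_one _
    · rw [if_neg h2] at h1
      have h3 := le_antisymm h1 (abs_nonneg _)
      rw [h3, mul_zero]; exact h0
  · rw [ξ_vv_ne hB h i a hi, ξ_vv_ne hB h i a' hi]
    simpa using h0


theorem PP_mono {k : ℕ} {M M' : ℝ} {g : CR} (h : PP σ ξ k M g) (hM : M ≤ M') : PP σ ξ k M' g :=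
  fun b a a' ha ha' => (h b a a' ha ha').trans hM

theorem PP_bound (hB : BSp σ ξ e) {k : ℕ} {M : ℝ} {g : CR} (h : PP σ ξ k M g) {b a : ℕ}
    (ha : a < (σ b).length) : rr b ^ idx (σ b) k * |ξ b a g| ≤ M := by
  have h1 := h b a 0 ha (by omega)
  rw [hB.ξ0 b 0 g (Or.inl rfl), sub_zero] at h1
  exact (mul_le_mul_of_nonneg_right (le_wt σ b k a 0) (abs_nonneg _)).trans h1

/-- properties of the partial sum operators -/
structure PS (σ : ℕ → List ℕ) (ξ : ℕ → ℕ → CR →L[ℝ] ℝ) (e : ℕ → ℕ → CR) (A : Set ℕ)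
    (S : ℕ → XX σ e A →ₗ[ℝ] XX σ e A) (L : ℕ → ℕ) (Cc : ℕ → ℝ) : Prop where
  est : ∀ k N (x : XX σ e A) (M : ℝ), 0 ≤ M → PP σ ξ (L k) M x → PP σ ξ k (Cc k * M) (S N x : CR)
  idem : ∀ N x, S N (S N x) = S N x
  pos : ∀ k, 0 < Cc k
  ge : ∀ k, k ≤ L k

open Classical in
/-- the vectors `v_i` as elements of the space -/
noncomputable def vX (σ : ℕ → List ℕ) (e : ℕ → ℕ → CR) {A : Set ℕ} {b : ℕ} (hb : b ∈ A)
    (i : ℕ) : XX σ e A :=
  if h : i < (σ b).length then ⟨vv e (σ b).length b i, vv_mem hb i h⟩ else 0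

theorem coe_vX {A : Set ℕ} {b : ℕ} (hb : b ∈ A) {i : ℕ} (h : i < (σ b).length) :
    ((vX σ e hb i : XX σ e A) : CR) = vv e (σ b).length b i := by
  unfold vX
  rw [dif_pos h]

theorem idemp (hB : BSp σ ξ e) (hProj : TaskProj) (hIdx : TaskIdx) {A : Set ℕ}
    (hA : ∀ b ∈ A, (σ b).Pairwise (· < ·)) {S : ℕ → XX σ e A →ₗ[ℝ] XX σ e A} {L : ℕ → ℕ}
    {Cc : ℕ → ℝ} (hS : PS σ ξ e A S L Cc) {b : ℕ} (hb : b ∈ A) (hs3 : 3 ≤ (σ b).length)
    (hs : Sparse L (σ b)) {ε : ℝ} (hε : 0 < ε)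
    (h1 : ∀ c < b, HH c * rr c ^ (L ((σ b).getD 0 0 + 1)) * HH b / rr b ≤ ε)
    (h2 : ∀ c > b, HH c / rr c * (HH b * rr b ^ (σ b).length) ≤ ε)
    (h3 : HH b / rr b ≤ ε) (N i a : ℕ) (hi : i < (σ b).length) (ha : a < (σ b).length) :
    |∑ j ∈ Finset.Ico 1 (σ b).length, ξ b a (S N (vX σ e hb j) : CR) *
        ξ b j (S N (vX σ e hb i) : CR) - ξ b a (S N (vX σ e hb i) : CR)| ≤
      ε * (Cc ((σ b).getD 0 0 + 1) * Cc 0 + Cc 0 * Cc (L ((σ b).getD 1 0 + 1)) +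
        Cc ((σ b).getD 1 0 + 1) * Cc ((σ b).getD 0 0 + 1)) := by
  obtain ⟨i1, -, -, i4, i5⟩ := hIdx (σ b) hs.1
  obtain ⟨s0, hs0⟩ : ∃ s0, s0 = (σ b).getD 0 0 := ⟨_, rfl⟩
  obtain ⟨s1, hs1⟩ : ∃ s1, s1 = (σ b).getD 1 0 := ⟨_, rfl⟩
  obtain ⟨s2, hs2⟩ : ∃ s2, s2 = (σ b).getD 2 0 := ⟨_, rfl⟩
  have hL0 : L 0 ≤ s0 := by rw [hs0]; exact hs.2.1
  have hL1 : L (s0 + 1) ≤ s1 := by rw [hs0, hs1]; exact hs.2.2 0 (by omega)
  have hL2 : L (s1 + 1) ≤ s2 := by rw [hs1, hs2]; exact hs.2.2 1 (by omega)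
  rw [← hs0] at h1 ⊢
  rw [← hs1]
  have g1 := hS.ge (s0 + 1)
  have g2 := hS.ge (s1 + 1)
  have d0 : idx (σ b) (L 0) = 0 := i1 0 (L 0) (by omega) (Or.inl rfl) (by rw [← hs0]; exact hL0)
  have d1 : idx (σ b) (s0 + 1) = 1 :=
    i1 1 _ (by omega) (Or.inr (by rw [← hs0]; omega)) (by rw [← hs1]; omega)
  have d1' : idx (σ b) (L (s0 + 1)) = 1 :=
    i1 1 _ (by omega) (Or.inr (by rw [← hs0]; omega)) (by rw [← hs1]; omega)
  have d2 : idx (σ b) (s1 + 1) = 2 :=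
    i1 2 _ (by omega) (Or.inr (by rw [← hs1]; omega)) (by rw [← hs2]; omega)
  have rb := rr_pos b
  have hb0 := HH_pos b
  obtain ⟨hXA, hPr⟩ := hProj σ ξ e hB A
  obtain ⟨v, hv⟩ : ∃ v : XX σ e A, v = vX σ e hb i := ⟨_, rfl⟩
  have hvc : (v : CR) = vv e (σ b).length b i := by rw [hv, coe_vX hb hi]
  obtain ⟨x, hx⟩ : ∃ x : XX σ e A, x = S N v := ⟨_, rfl⟩
  have hSx : S N x = x := by rw [hx, hS.idem]
  -- bounds for `x`
  have x0 : PP σ ξ 0 (Cc 0 * HH b) x := by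
    have := hS.est 0 N v (rr b ^ idx (σ b) (L 0) * HH b) (by positivity) (by
      rw [hvc]; exact PP_vv hB b i (L 0) hi)
    rw [d0, pow_zero, one_mul, ← hx] at this
    exact this
  have xm1 : PP σ ξ (s0 + 1) (Cc (s0 + 1) * (rr b * HH b)) x := by
    have := hS.est (s0 + 1) N v (rr b ^ idx (σ b) (L (s0 + 1)) * HH b) (by positivity) (by
      rw [hvc]; exact PP_vv hB b i _ hi)
    rw [d1', pow_one, ← hx] at this
    exact this
  have xM1 : PP σ ξ (L (s1 + 1)) (Cc (L (s1 + 1)) * (rr b ^ (σ b).length * HH b)) x := by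
    have := hS.est (L (s1 + 1)) N v (rr b ^ idx (σ b) (L (L (s1 + 1))) * HH b) (by positivity) (by
      rw [hvc]; exact PP_vv hB b i _ hi)
    rw [← hx] at this
    refine PP_mono this ?_
    apply mul_le_mul_of_nonneg_left _ (hS.pos _).le
    exact mul_le_mul_of_nonneg_right (pow_le_pow_right₀ (rr_ge b) (i5 _)) hb0.le
  have hxA : ∀ c ∉ A, ∀ a, ξ c a (x : CR) = 0 := (hXA x x.2).2
  -- the rest
  obtain ⟨y, hy⟩ : ∃ y : XX σ e A, y = x - ∑ j ∈ Finset.Ico 1 (σ b).length,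
    (ξ b j (x : CR)) • vX σ e hb j := ⟨_, rfl⟩
  have hyc : ∀ c a', ξ c a' (y : CR) = ξ c a' (x : CR) - ∑ j ∈ Finset.Ico 1 (σ b).length,
      ξ b j (x : CR) * ξ c a' (vv e (σ b).length b j) := by
    intro c a'
    rw [hy]
    push_cast
    rw [map_sub, map_sum]
    congr 1
    apply Finset.sum_congr rfl
    intro j hj
    rw [map_smul, smul_eq_mul, coe_vX hb (Finset.mem_Ico.1 hj).2]
  have hyb : ∀ a' < (σ b).length, ξ b a' (y : CR) = 0 := by
    intro a' ha'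
    rw [hyc]
    have : ∑ j ∈ Finset.Ico 1 (σ b).length, ξ b j (x : CR) * ξ b a' (vv e (σ b).length b j) =
        ξ b a' (x : CR) := by
      rw [Finset.sum_congr rfl (g := fun j => if a' = j then ξ b j (x : CR) else 0)]
      · rw [Finset.sum_ite_eq]
        split_ifs with h
        · rfl
        · rw [Finset.mem_Ico] at h
          have : a' = 0 := by omega
          rw [this, hB.ξ0 b 0 _ (Or.inl rfl)]
      · intro j hj
        rw [Finset.mem_Ico] at hj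
        rw [ξ_vv hB b j a' hj.2 ha', if_neg (by omega)]
        split_ifs <;> simp
    rw [this, sub_self]
  have hyn : ∀ c a', c ≠ b → ξ c a' (y : CR) = ξ c a' (x : CR) := by
    intro c a' hc
    rw [hyc, Finset.sum_eq_zero, sub_zero]
    intro j hj
    rw [ξ_vv_ne hB hc j a' (Finset.mem_Ico.1 hj).2, mul_zero]
  have key : ∑ j ∈ Finset.Ico 1 (σ b).length, ξ b a (S N (vX σ e hb j) : CR) *
        ξ b j (S N (vX σ e hb i) : CR) - ξ b a (S N (vX σ e hb i) : CR) =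
      - ξ b a (S N y : CR) := by
    rw [← hv, ← hx]
    have h : (S N y : CR) = (x : CR) - ∑ j ∈ Finset.Ico 1 (σ b).length,
        ξ b j (x : CR) • (S N (vX σ e hb j) : CR) := by
      rw [hy, map_sub, map_sum, hSx]
      push_cast
      congr 1
      apply Finset.sum_congr rfl
      intro j _
      rw [map_smul]; rfl
    rw [h, map_sub, map_sum, neg_sub]
    congr 1
    apply Finset.sum_congr rfl
    intro j _
    rw [map_smul, smul_eq_mul, mul_comm]
  rw [key, abs_neg]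
  -- the three groups
  obtain ⟨y1, hy1m, hy1, hy1'⟩ := hPr {c | c < b} x x.2
  obtain ⟨y2, hy2m, hy2, hy2'⟩ :=
    hPr {c | b < c ∧ idx (σ c) (s0 + 1) < idx (σ c) (L (s1 + 1))} x x.2
  obtain ⟨Y1, hY1⟩ : ∃ Y1 : XX σ e A, Y1 = ⟨y1, hy1m⟩ := ⟨_, rfl⟩
  obtain ⟨Y2, hY2⟩ : ∃ Y2 : XX σ e A, Y2 = ⟨y2, hy2m⟩ := ⟨_, rfl⟩
  have cY1 : (Y1 : CR) = y1 := by rw [hY1]
  have cY2 : (Y2 : CR) = y2 := by rw [hY2]
  obtain ⟨Y3, hY3⟩ : ∃ Y3 : XX σ e A, Y3 = y - Y1 - Y2 := ⟨_, rfl⟩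
  have cY3 : ∀ c a', ξ c a' (Y3 : CR) = ξ c a' (y : CR) - ξ c a' y1 - ξ c a' y2 := by
    intro c a'
    rw [hY3]
    push_cast
    rw [map_sub, map_sub, cY1, cY2]
  have hdec : ξ b a (S N y : CR) = ξ b a (S N Y1 : CR) + ξ b a (S N Y2 : CR) +
      ξ b a (S N Y3 : CR) := by
    have h : y = Y1 + Y2 + Y3 := by rw [hY3]; abel
    have h' : (S N y : CR) = (S N Y1 : CR) + (S N Y2 : CR) + (S N Y3 : CR) := by
      conv_lhs => rw [h]
      rw [map_add, map_add]; push_cast; rfl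
    rw [h', map_add, map_add]
  -- group 1
  have e1 : |ξ b a (S N Y1 : CR)| ≤ ε * (Cc (s0 + 1) * Cc 0) := by
    have p1 : PP σ ξ (L (s0 + 1)) (Cc 0 * (ε * rr b)) Y1 := by
      intro c a1 a2 ha1 ha2
      have hM : 0 ≤ Cc 0 * (ε * rr b) := mul_nonneg (hS.pos 0).le (mul_pos hε rb).le
      rw [cY1]
      by_cases hc : c < b
      · rw [hy1 c hc, hy1 c hc]
        by_cases hcA : c ∈ A
        · have q1 := x0 c a1 a2 ha1 ha2
          have q2 : |ξ c a1 (x : CR) - ξ c a2 (x : CR)| ≤ Cc 0 * HH b :=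
            (le_mul_of_one_le_left (abs_nonneg _) (one_le_wt σ c 0 a1 a2)).trans q1
          have q3 : wt σ c (L (s0 + 1)) a1 a2 ≤ rr c ^ (L (s0 + 1)) * HH c := by
            refine (wt_le σ c _ a1 a2).trans ?_
            apply mul_le_mul_of_nonneg_right _ (HH_pos c).le
            exact pow_le_pow_right₀ (rr_ge c) ((hIdx (σ c) (hA c hcA)).2.2.1 _)
          have q4 := h1 c hc
          rw [div_le_iff₀ rb] at q4
          calc wt σ c (L (s0 + 1)) a1 a2 * |ξ c a1 (x : CR) - ξ c a2 (x : CR)|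
              ≤ (rr c ^ (L (s0 + 1)) * HH c) * (Cc 0 * HH b) :=
                mul_le_mul q3 q2 (abs_nonneg _)
                  (mul_nonneg (pow_nonneg (rr_pos c).le _) (HH_pos c).le)
            _ = Cc 0 * (HH c * rr c ^ (L (s0 + 1)) * HH b) := by ring
            _ ≤ Cc 0 * (ε * rr b) := mul_le_mul_of_nonneg_left q4 (hS.pos 0).le
        · rw [hxA c hcA, hxA c hcA]; simpa using hM
      · rw [hy1' c hc, hy1' c hc]; simpa using hM
    have p2 := PP_bound hB (hS.est (s0 + 1) N Y1 _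
      (mul_nonneg (hS.pos 0).le (mul_pos hε rb).le) p1) ha
    rw [d1, pow_one] at p2
    have p3 : rr b * |ξ b a (S N Y1 : CR)| ≤ rr b * (ε * (Cc (s0 + 1) * Cc 0)) := by
      refine p2.trans (le_of_eq ?_); ring
    exact le_of_mul_le_mul_left p3 rb
  -- group 2
  have e2 : |ξ b a (S N Y2 : CR)| ≤ ε * (Cc 0 * Cc (L (s1 + 1))) := by
    have hM : 0 ≤ Cc (L (s1 + 1)) * ε := mul_nonneg (hS.pos _).le hε.le
    have p1 : PP σ ξ (L 0) (Cc (L (s1 + 1)) * ε) Y2 := by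
      intro c a1 a2 ha1 ha2
      rw [cY2]
      by_cases hc : b < c ∧ idx (σ c) (s0 + 1) < idx (σ c) (L (s1 + 1))
      · rw [hy2 c hc, hy2 c hc]
        by_cases hcA : c ∈ A
        · have q0 : idx (σ c) (L 0) ≤ idx (σ c) (s0 + 1) :=
            (hIdx (σ c) (hA c hcA)).2.2.2.1 _ _ (by omega)
          have q1 := xM1 c a1 a2 ha1 ha2
          have rc := rr_pos c
          have q2 : wt σ c (L 0) a1 a2 ≤ HH c / rr c * wt σ c (L (s1 + 1)) a1 a2 := by
            have r1 : rr c ^ idx (σ c) (L 0) * rr c ≤ rr c ^ idx (σ c) (L (s1 + 1)) := by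
              rw [← pow_succ]
              exact pow_le_pow_right₀ (rr_ge c) (by omega)
            calc wt σ c (L 0) a1 a2 ≤ rr c ^ idx (σ c) (L 0) * HH c := wt_le σ c _ a1 a2
              _ = HH c / rr c * (rr c ^ idx (σ c) (L 0) * rr c) := by field_simp
              _ ≤ HH c / rr c * rr c ^ idx (σ c) (L (s1 + 1)) :=
                  mul_le_mul_of_nonneg_left r1 (div_pos (HH_pos c) rc).le
              _ ≤ HH c / rr c * wt σ c (L (s1 + 1)) a1 a2 :=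
                  mul_le_mul_of_nonneg_left (le_wt σ c _ a1 a2) (div_pos (HH_pos c) rc).le
          calc wt σ c (L 0) a1 a2 * |ξ c a1 (x : CR) - ξ c a2 (x : CR)|
              ≤ (HH c / rr c * wt σ c (L (s1 + 1)) a1 a2) *
                |ξ c a1 (x : CR) - ξ c a2 (x : CR)| :=
                mul_le_mul_of_nonneg_right q2 (abs_nonneg _)
            _ = HH c / rr c * (wt σ c (L (s1 + 1)) a1 a2 *
                |ξ c a1 (x : CR) - ξ c a2 (x : CR)|) := by ring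
            _ ≤ HH c / rr c * (Cc (L (s1 + 1)) * (rr b ^ (σ b).length * HH b)) :=
                mul_le_mul_of_nonneg_left q1 (div_pos (HH_pos c) rc).le
            _ = Cc (L (s1 + 1)) * (HH c / rr c * (HH b * rr b ^ (σ b).length)) := by ring
            _ ≤ Cc (L (s1 + 1)) * ε := mul_le_mul_of_nonneg_left (h2 c hc.1) (hS.pos _).le
        · rw [hxA c hcA, hxA c hcA]; simpa using hM
      · rw [hy2' c hc, hy2' c hc]; simpa using hM
    have p2 := PP_bound hB (hS.est 0 N Y2 _ hM p1) ha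
    have p3 : |ξ b a (S N Y2 : CR)| ≤ rr b ^ idx (σ b) 0 * |ξ b a (S N Y2 : CR)| :=
      le_mul_of_one_le_left (abs_nonneg _) (one_le_pow₀ (rr_ge b))
    refine (p3.trans p2).trans (le_of_eq ?_)
    ring
  -- group 3
  have e3 : |ξ b a (S N Y3 : CR)| ≤ ε * (Cc (s1 + 1) * Cc (s0 + 1)) := by
    have hM : 0 ≤ Cc (s0 + 1) * (rr b * HH b) := mul_nonneg (hS.pos _).le (mul_pos rb hb0).le
    have p1 : PP σ ξ (L (s1 + 1)) (Cc (s0 + 1) * (rr b * HH b)) Y3 := by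
      intro c a1 a2 ha1 ha2
      rw [cY3, cY3]
      rcases lt_trichotomy c b with hc | hc | hc
      · have hn : c ∉ {c | b < c ∧ idx (σ c) (s0 + 1) < idx (σ c) (L (s1 + 1))} :=
          fun h => by have := h.1; omega
        rw [hy1 c hc, hy1 c hc, hy2' c hn, hy2' c hn, hyn c a1 (by omega), hyn c a2 (by omega)]
        simpa using hM
      · subst hc
        have hn : c ∉ {c' | c < c' ∧ idx (σ c') (s0 + 1) < idx (σ c') (L (s1 + 1))} :=
          fun h => by have := h.1; omega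
        have hn' : c ∉ {c' | c' < c} := fun h => lt_irrefl c h
        rw [hy1' c hn', hy1' c hn', hy2' c hn, hy2' c hn, hyb a1 ha1, hyb a2 ha2]
        simpa using hM
      · have hn' : c ∉ {c' | c' < b} := fun h => by have : c < b := h; omega
        rw [hy1' c hn', hy1' c hn', hyn c a1 (by omega), hyn c a2 (by omega)]
        by_cases hc2 : idx (σ c) (s0 + 1) < idx (σ c) (L (s1 + 1))
        · rw [hy2 c ⟨hc, hc2⟩, hy2 c ⟨hc, hc2⟩]
          simpa using hM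
        · rw [hy2' c (fun h => hc2 h.2), hy2' c (fun h => hc2 h.2), sub_zero, sub_zero, sub_zero,
            sub_zero]
          by_cases hcA : c ∈ A
          · have q0 : idx (σ c) (s0 + 1) ≤ idx (σ c) (L (s1 + 1)) :=
              (hIdx (σ c) (hA c hcA)).2.2.2.1 _ _ (by omega)
            have q1 : idx (σ c) (L (s1 + 1)) = idx (σ c) (s0 + 1) := by omega
            have q2 : wt σ c (L (s1 + 1)) a1 a2 = wt σ c (s0 + 1) a1 a2 := by
              unfold wt; rw [q1]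
            rw [q2]
            exact xm1 c a1 a2 ha1 ha2
          · rw [hxA c hcA, hxA c hcA]; simpa using hM
    have p2 := PP_bound hB (hS.est (s1 + 1) N Y3 _ hM p1) ha
    rw [d2] at p2
    have q4 := h3
    rw [div_le_iff₀ rb] at q4
    have p3 : rr b ^ 2 * |ξ b a (S N Y3 : CR)| ≤
        rr b ^ 2 * (ε * (Cc (s1 + 1) * Cc (s0 + 1))) := by
      refine p2.trans ?_
      calc Cc (s1 + 1) * (Cc (s0 + 1) * (rr b * HH b))
          = (Cc (s1 + 1) * Cc (s0 + 1) * rr b) * HH b := by ring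
        _ ≤ (Cc (s1 + 1) * Cc (s0 + 1) * rr b) * (ε * rr b) :=
            mul_le_mul_of_nonneg_left q4
              (mul_nonneg (mul_nonneg (hS.pos _).le (hS.pos _).le) rb.le)
        _ = rr b ^ 2 * (ε * (Cc (s1 + 1) * Cc (s0 + 1))) := by ring
    exact le_of_mul_le_mul_left p3 (by positivity)
  rw [hdec]
  calc |ξ b a (S N Y1 : CR) + ξ b a (S N Y2 : CR) + ξ b a (S N Y3 : CR)|
      ≤ |ξ b a (S N Y1 : CR)| + |ξ b a (S N Y2 : CR)| + |ξ b a (S N Y3 : CR)| := abs_add_three _ _ _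
    _ ≤ ε * (Cc (s0 + 1) * Cc 0) + ε * (Cc 0 * Cc (L (s1 + 1))) +
        ε * (Cc (s1 + 1) * Cc (s0 + 1)) := add_le_add (add_le_add e1 e2) e3
    _ = _ := by ring

end

end Pool.Agent.H418R3.FB
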