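import Pool.Agent.H418R3.FB.Neg

set_option autoImplicit false
open Set Topology Filter MeasureTheory

namespace Pool.Agent.H418R3.FB

variable {σ : ℕ → List ℕ} {ξ : ℕ → ℕ → CR →L[ℝ] ℝ} {e : ℕ → ℕ → CR}

theorem est_of (hB : BSp σ ξ e) (hProj : TaskProj) {A : Set ℕ}
    {S : ℕ → XX σ e A →ₗ[ℝ] XX σ e A} {l : ℕ → ℕ} {C : ℕ → ℝ}
    (hest : ∀ k N (x : XX σ e A) (M : ℝ), (∀ t : ℝ, |t| ≤ l k → |(x : CR) t| ≤ M) →
        ∀ t : ℝ, |t| ≤ k → |((S N x : XX σ e A) : CR) t| ≤ C k * M) :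
    ∀ k N (x : XX σ e A) (M : ℝ), 0 ≤ M → PP σ ξ (max (l (k + 1)) k) M x →
      PP σ ξ k (C (k + 1) * M) (S N x : CR) := by
  intro k N x M hM hP
  have hXA := (hProj σ ξ e hB A).1
  have h1 := hB.up x (hXA x x.2).1 (max (l (k + 1)) k) M hM hP
  have h2 := hest (k + 1) N x M fun t ht => h1 t (ht.trans (by exact_mod_cast le_max_left _ _))
  exact hB.dn (S N x) (hXA _ (S N x).2).1 k _ fun t ht => h2 t (by push_cast; exact ht)

theorem taskNeg : TaskNeg := by
  intro hProj hAuto hMatrix hSmall hIdx σ ξ e hB A hA hl hbasis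
  have hXA := (hProj σ ξ e hB A).1
  rcases hbasis with hfin | ⟨e', he'⟩
  · obtain ⟨s, hs3, -, hinf⟩ := hl id
    have hmem : ∀ b : {b // b ∈ A ∧ σ b = s}, e b.1 1 ∈ XX σ e A := fun b =>
      Submodule.le_topologicalClosure _ (Submodule.subset_span
        ⟨b.1, b.2.1, 1, one_pos, by rw [b.2.2]; omega, rfl⟩)
    have hli : LinearIndependent ℝ (fun b : {b // b ∈ A ∧ σ b = s} =>
        (⟨e b.1 1, hmem b⟩ : XX σ e A)) := by
      rw [linearIndependent_iff']
      intro F g hg b hb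
      have h1 : ∑ c ∈ F, g c • e c.1 1 = 0 := by
        have := congrArg (fun x : XX σ e A => (x : CR)) hg
        simpa using this
      have h2 : ξ b.1 1 (∑ c ∈ F, g c • e c.1 1) = 0 := by rw [h1, map_zero]
      rw [map_sum, Finset.sum_eq_single b] at h2
      · rw [map_smul, hB.ξe b.1 1 one_pos (by rw [b.2.2]; omega), if_pos ⟨rfl, rfl⟩] at h2
        simpa using h2
      · intro c _ hc
        rw [map_smul, hB.ξe c.1 1 one_pos (by rw [c.2.2]; omega), if_neg, smul_zero]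
        intro h
        exact hc (Subtype.ext h.1.symm)
      · intro h; exact absurd hb h
    have _ := hli.finite
    have _ : Finite ↑{b | b ∈ A ∧ σ b = s} :=
      Finite.of_injective (fun x => (⟨x.1, x.2⟩ : {b // b ∈ A ∧ σ b = s}))
        (fun x y h => by simpa using h)
    exact hinf (Set.toFinite {b | b ∈ A ∧ σ b = s})
  · obtain ⟨S, l, C, hS0, hSt, hSi, hSr, hCp, hest⟩ :=
      hAuto (XX σ e A) e' (Submodule.isClosed_topologicalClosure _) he'
    obtain ⟨L, hL⟩ : ∃ L : ℕ → ℕ, L = fun k => max (l (k + 1)) k := ⟨_, rfl⟩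
    obtain ⟨Cc, hCc⟩ : ∃ Cc : ℕ → ℝ, Cc = fun k => C (k + 1) := ⟨_, rfl⟩
    have hPS : PS σ ξ e A S L Cc := by
      rw [hL, hCc]
      exact ⟨est_of hB hProj hest, hSi, fun k => hCp _, fun k => le_max_right _ _⟩
    obtain ⟨s, hs3, hs, hinf⟩ := hl L
    obtain ⟨st, hst⟩ : ∃ st : ℕ → ℕ, st = fun i => if i = 0 then 0 else s.getD (i - 1) 0 + 1 :=
      ⟨_, rfl⟩
    obtain ⟨i1, -, -, -, -⟩ := hIdx s hs.1
    -- windows
    have hLst : ∀ i < s.length, L (st i) ≤ s.getD i 0 := by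
      intro i hi
      rw [hst]
      rcases Nat.eq_zero_or_pos i with h | h
      · subst h; exact hs.2.1
      · obtain ⟨j, rfl⟩ : ∃ j, i = j + 1 := ⟨i - 1, by omega⟩
        simpa using hs.2.2 j hi
    have hst' : ∀ i, i = 0 ∨ s.getD (i - 1) 0 < st i := by
      intro i
      rw [hst]
      rcases Nat.eq_zero_or_pos i with h | h
      · exact Or.inl h
      · right; simp only [if_neg (show i ≠ 0 by omega)]; omega
    have w1 : ∀ i < s.length, idx s (st i) = i := fun i hi =>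
      i1 i (st i) hi (hst' i) ((hPS.ge _).trans (hLst i hi))
    have w2 : ∀ i < s.length, idx s (L (st i)) = i := fun i hi =>
      i1 i _ hi ((hst' i).imp id fun h => lt_of_lt_of_le h (hPS.ge _)) (hLst i hi)
    obtain ⟨Cm, hCm⟩ : ∃ Cm : ℝ, Cm = ∑ i ∈ Finset.range s.length, Cc (st i) := ⟨_, rfl⟩
    have hCle : ∀ i < s.length, Cc (st i) ≤ Cm := by
      intro i hi
      rw [hCm]
      exact Finset.single_le_sum (f := fun i => Cc (st i)) (fun j _ => (hPS.pos _).le)
        (Finset.mem_range.2 hi)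
    have hCm0 : 0 < Cm := lt_of_lt_of_le (hPS.pos _) (hCle 0 (by omega))
    obtain ⟨δ, hδ, hM⟩ := hMatrix s.length hs3 Cm hCm0
    obtain ⟨K, hK⟩ : ∃ K : ℝ, K = Cc (s.getD 0 0 + 1) * Cc 0 +
        Cc 0 * Cc (L (s.getD 1 0 + 1)) + Cc (s.getD 1 0 + 1) * Cc (s.getD 0 0 + 1) := ⟨_, rfl⟩
    have hK0 : 0 < K := by
      rw [hK]
      have p1 := hPS.pos (s.getD 0 0 + 1)
      have p2 := hPS.pos 0
      have p3 := hPS.pos (L (s.getD 1 0 + 1))
      have p4 := hPS.pos (s.getD 1 0 + 1)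
      positivity
    obtain ⟨ε, hε⟩ : ∃ ε : ℝ, ε = δ / (K + Cm) := ⟨_, rfl⟩
    have hε0 : 0 < ε := by rw [hε]; positivity
    have hεK : ε * K ≤ δ := by
      rw [hε, div_mul_eq_mul_div, div_le_iff₀ (by positivity)]
      exact mul_le_mul_of_nonneg_left (by linarith) hδ.le
    have hεC : Cm * ε ≤ δ := by
      rw [hε, mul_div_assoc', div_le_iff₀ (by positivity), mul_comm]
      exact mul_le_mul_of_nonneg_left (by linarith) hδ.le
    obtain ⟨b₁, hb₁⟩ := hSmall (L (s.getD 0 0 + 1)) ε hε0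
    obtain ⟨b₂, hb₂⟩ := hSmall s.length ε hε0
    obtain ⟨b, ⟨hbA, hbs⟩, hbgt⟩ := hinf.exists_gt (max b₁ b₂)
    obtain ⟨q1, -, q3, q4⟩ := hb₁ b ((le_max_left _ _).trans hbgt.le)
    obtain ⟨-, q2, -, -⟩ := hb₂ b ((le_max_right _ _).trans hbgt.le)
    clear hb₁ hb₂ hinf hl
    subst hbs
    have rb := rr_pos b
    refine hM (fun N a i => ξ b a (S N (vX σ e hbA i) : CR)) ?_ ?_ ?_ ?_ ?_ ?_ ?_ ?_
    · intro N i
      exact hB.ξ0 b 0 _ (Or.inl rfl)
    · intro N a ha
      have h1 : ∑ i ∈ Finset.range (σ b).length, vX σ e hbA i = (0 : XX σ e A) := by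
        apply Subtype.ext
        push_cast
        have h0 : ∀ i ∈ Finset.range (σ b).length,
            ((vX σ e hbA i : XX σ e A) : CR) = vv e (σ b).length b i :=
          fun i hi => coe_vX hbA (Finset.mem_range.1 hi)
        exact (Finset.sum_congr rfl h0).trans (vv_sum b _ (by omega))
      have h2 : ξ b a (S N (∑ i ∈ Finset.range (σ b).length, vX σ e hbA i) : CR) = 0 := by
        rw [h1, map_zero]; simp
      rw [map_sum] at h2
      push_cast at h2
      rw [map_sum] at h2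
      exact h2
    · intro a i ha hi
      show ξ b a (S 0 (vX σ e hbA i) : CR) = 0
      rw [hS0]; simp
    · intro a i ha1 ha hi1 hi
      have h1 := ((ξ b a).continuous.tendsto _).comp (hSt (vX σ e hbA i))
      rw [coe_vX hbA hi, ξ_vv hB b i a hi ha, if_neg (by omega)] at h1
      exact h1
    · intro N
      obtain ⟨φ, v, hv⟩ := hSr N
      refine ⟨fun a => ξ b a v, fun i => φ (vX σ e hbA i), fun a i _ _ => ?_⟩
      show ξ b a (S (N + 1) (vX σ e hbA i) : CR) = _
      rw [hv]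
      push_cast
      rw [map_add, map_smul, smul_eq_mul, mul_comm]
    · intro N a i ha hi
      have h1 := hPS.est (st i) N (vX σ e hbA i) (rr b ^ i) (by positivity) (by
        rw [coe_vX hbA hi]; exact PP_vv' hB b i _ hi (w2 i hi))
      have h2 := PP_bound hB h1 ha
      rw [w1 i hi, mul_comm (Cc (st i))] at h2
      exact (le_of_mul_le_mul_left h2 (by positivity)).trans (hCle i hi)
    · intro N i a a' hi ha ha' hai hai'
      have h1 := hPS.est (st i) N (vX σ e hbA i) (rr b ^ i) (by positivity) (by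
        rw [coe_vX hbA hi]; exact PP_vv' hB b i _ hi (w2 i hi))
      have h2 := h1 b a a' ha ha'
      have h3 : wt σ b (st i) a a' = rr b ^ i * HH b := by
        unfold wt
        rw [w1 i hi, if_neg (by omega)]
      rw [h3, mul_assoc, mul_comm (Cc (st i))] at h2
      have h4 := le_of_mul_le_mul_left h2 (by positivity : (0:ℝ) < rr b ^ i)
      have h5 : |ξ b a (S N (vX σ e hbA i) : CR) - ξ b a' (S N (vX σ e hbA i) : CR)| ≤
          Cc (st i) * (1 / HH b) := by
        rw [mul_one_div, le_div_iff₀ (HH_pos b), mul_comm]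
        exact h4
      refine h5.trans ?_
      calc Cc (st i) * (1 / HH b) ≤ Cm * ε :=
            mul_le_mul (hCle i hi) q4 (one_div_pos.2 (HH_pos b)).le hCm0.le
        _ ≤ δ := hεC
    · intro N a i ha hi
      refine (idemp hB hProj hIdx hA hPS hbA hs3 hs hε0 q1 q2 q3 N i a hi ha).trans ?_
      rw [← hK]
      exact hεK

end Pool.Agent.H418R3.FB
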