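import Mathlib
import Pool.Agent.H418R3.FB.Stmts

set_option autoImplicit false

open Filter Topology

namespace Pool.Agent.H418R3.FB

theorem taskMatrix : TaskMatrix := by
  intro n hn C hC
  have hn0 : (0 : ℝ) < n := by
    have : 0 < n := by omega
    exact_mod_cast this
  have hn3 : (3 : ℝ) ≤ n := by exact_mod_cast hn
  refine ⟨1 / (100 * n), by positivity, ?_⟩
  intro M h1 h2 h3 h4 h5 h6 h7 h8
  set δ : ℝ := 1 / (100 * n) with hδ
  have hδ0 : 0 < δ := by positivity
  have hnδ : n * δ = 1 / 100 := by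
    rw [hδ]; field_simp
  have hδs : δ ≤ 1 / 300 := by
    rw [hδ]
    apply one_div_le_one_div_of_le (by norm_num)
    linarith
  -- off-diagonal entries are small
  have hoff : ∀ N a i, a < n → 1 ≤ i → i < n → a ≠ i → |M N a i| ≤ δ := by
    intro N a i ha hi hin hai
    have := h7 N i a 0 hin ha (by omega) hai (by omega)
    rwa [h1, sub_zero] at this
  -- row sums
  have hrow : ∀ N a, 1 ≤ a → a < n → |M N a 0 + M N a a| ≤ n * δ := by
    intro N a ha han
    have e1 := h2 N a han
    have hmem : (0 : ℕ) ∈ Finset.range n := Finset.mem_range.2 (by omega)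
    have hmem2 : a ∈ (Finset.range n).erase 0 :=
      Finset.mem_erase.2 ⟨by omega, Finset.mem_range.2 han⟩
    rw [← Finset.add_sum_erase _ _ hmem, ← Finset.add_sum_erase _ _ hmem2] at e1
    have e2 : M N a 0 + M N a a = - ∑ i ∈ ((Finset.range n).erase 0).erase a, M N a i := by
      linarith
    rw [e2, abs_neg]
    refine (Finset.abs_sum_le_sum_abs _ _).trans ?_
    have e3 : ∑ i ∈ ((Finset.range n).erase 0).erase a, |M N a i| ≤
        ∑ _i ∈ ((Finset.range n).erase 0).erase a, δ := by
      refine Finset.sum_le_sum fun i hi => ?_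
      simp only [Finset.mem_erase, Finset.mem_range] at hi
      exact hoff N a i han (by omega) hi.2.2 (by omega)
    refine e3.trans ?_
    rw [Finset.sum_const, nsmul_eq_mul]
    refine mul_le_mul_of_nonneg_right ?_ hδ0.le
    have : (((Finset.range n).erase 0).erase a).card ≤ n := by
      refine (Finset.card_erase_le).trans ((Finset.card_erase_le).trans ?_)
      rw [Finset.card_range]
    exact_mod_cast this
  -- the two diagonal entries are close
  have hclose : ∀ N, |M N 1 1 - M N 2 2| ≤ 1 / 40 := by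
    intro N
    have e1 := abs_le.1 (hrow N 1 le_rfl (by omega))
    have e2 := abs_le.1 (hrow N 2 (by norm_num) (by omega))
    have e3 := abs_le.1 (h7 N 0 1 2 (by omega) (by omega) (by omega) (by norm_num) (by norm_num))
    rw [hnδ] at e1 e2
    rw [abs_le]
    constructor <;> linarith [e1.1, e1.2, e2.1, e2.2, e3.1, e3.2]
  -- idempotency
  have hidem : ∀ N, |M N 1 1 * M N 1 1 - M N 1 1| ≤ 1 / 100 := by
    intro N
    have e1 := h8 N 1 1 (by omega) (by omega)
    have hmem : (1 : ℕ) ∈ Finset.Ico 1 n := Finset.mem_Ico.2 ⟨le_rfl, by omega⟩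
    rw [← Finset.add_sum_erase _ _ hmem] at e1
    have e2 : |∑ j ∈ (Finset.Ico 1 n).erase 1, M N 1 j * M N j 1| ≤ n * (δ * δ) := by
      refine (Finset.abs_sum_le_sum_abs _ _).trans ?_
      have e3 : ∑ j ∈ (Finset.Ico 1 n).erase 1, |M N 1 j * M N j 1| ≤
          ∑ _j ∈ (Finset.Ico 1 n).erase 1, (δ * δ) := by
        refine Finset.sum_le_sum fun j hj => ?_
        simp only [Finset.mem_erase, Finset.mem_Ico] at hj
        rw [abs_mul]
        exact mul_le_mul (hoff N 1 j (by omega) (by omega) hj.2.2 (by omega))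
          (hoff N j 1 hj.2.2 le_rfl (by omega) hj.1) (abs_nonneg _) hδ0.le
      refine e3.trans ?_
      rw [Finset.sum_const, nsmul_eq_mul]
      refine mul_le_mul_of_nonneg_right ?_ (by positivity)
      have : ((Finset.Ico 1 n).erase 1).card ≤ n := by
        refine (Finset.card_erase_le).trans ?_
        rw [Nat.card_Ico]
        omega
      exact_mod_cast this
    have e4 : n * (δ * δ) ≤ 1 / 300 := by
      have : n * (δ * δ) = (n * δ) * δ := by ring
      rw [this, hnδ]
      linarith
    have e5 := abs_le.1 e1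
    have e6 := abs_le.1 e2
    rw [abs_le]
    constructor <;> linarith [e5.1, e5.2, e6.1, e6.2]
  have hdich : ∀ N, M N 1 1 < 1 / 8 ∨ 7 / 8 < M N 1 1 := by
    intro N
    by_contra hcon
    push Not at hcon
    have e1 := (abs_le.1 (hidem N)).1
    nlinarith [mul_nonneg (sub_nonneg.2 hcon.1) (sub_nonneg.2 hcon.2)]
  -- the jump
  have hlim := h4 1 1 le_rfl (by omega) le_rfl (by omega)
  simp only [if_true] at hlim
  have hex : ∃ N, 7 / 8 < M N 1 1 :=
    (hlim.eventually (lt_mem_nhds (show (7 / 8 : ℝ) < 1 by norm_num))).exists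
  classical
  set K := Nat.find hex with hK
  have hK1 : 7 / 8 < M K 1 1 := Nat.find_spec hex
  have hK0 : K ≠ 0 := by
    intro h
    rw [h, h3 1 1 (by omega) (by omega)] at hK1
    norm_num at hK1
  obtain ⟨N, hN⟩ := Nat.exists_eq_succ_of_ne_zero hK0
  have hN1 : ¬ 7 / 8 < M N 1 1 := Nat.find_min hex (by omega)
  have hN2 : M N 1 1 < 1 / 8 := (hdich N).resolve_right hN1
  have hN3 : 7 / 8 < M (N + 1) 1 1 := by rw [hN] at hK1; exact hK1
  obtain ⟨u, w, huw⟩ := h5 N
  have d11 := huw 1 1 (by omega) (by omega)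
  have d12 := huw 1 2 (by omega) (by omega)
  have d21 := huw 2 1 (by omega) (by omega)
  have d22 := huw 2 2 (by omega) (by omega)
  have b12 : |u 1 * w 2| ≤ 1 / 100 := by
    have e1 := abs_le.1 (hoff (N + 1) 1 2 (by omega) (by omega) (by omega) (by omega))
    have e2 := abs_le.1 (hoff N 1 2 (by omega) (by omega) (by omega) (by omega))
    rw [abs_le]
    constructor <;> linarith [e1.1, e1.2, e2.1, e2.2]
  have b21 : |u 2 * w 1| ≤ 1 / 100 := by
    have e1 := abs_le.1 (hoff (N + 1) 2 1 (by omega) (by omega) (by omega) (by omega))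
    have e2 := abs_le.1 (hoff N 2 1 (by omega) (by omega) (by omega) (by omega))
    rw [abs_le]
    constructor <;> linarith [e1.1, e1.2, e2.1, e2.2]
  have b11 : 1 / 2 < u 1 * w 1 := by linarith
  have b22 : 1 / 2 < u 2 * w 2 := by
    have e1 := abs_le.1 (hclose (N + 1))
    have e2 := abs_le.1 (hclose N)
    linarith [e1.1, e1.2, e2.1, e2.2]
  have e1 : (u 1 * w 1) * (u 2 * w 2) = (u 1 * w 2) * (u 2 * w 1) := by ring
  have e2 : |(u 1 * w 2) * (u 2 * w 1)| ≤ 1 / 100 * (1 / 100) := by
    rw [abs_mul]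
    exact mul_le_mul b12 b21 (abs_nonneg _) (by norm_num)
  have e3 : 1 / 2 * (1 / 2) < (u 1 * w 1) * (u 2 * w 2) :=
    mul_lt_mul b11 b22.le (by norm_num) (by linarith)
  rw [e1] at e3
  have e4 := (abs_le.1 e2).2
  linarith

end Pool.Agent.H418R3.FB
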